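import Pool.Agent.helper11.EF.Step

/-!
# EF-Main : Jaeger and Kilpatrick, every bridgeless graph has a nowhere-zero F_2^3-flow (part B)
-/

namespace CDC

namespace EF

variable {V E : Type*} [Fintype V] [DecidableEq V] [Fintype E] [DecidableEq E]

theorem p_all {s t : E → V} (hb : Bridgeless s t) :
    ∀ (n : ℕ) (U : Finset V), Uᶜ.card = n → Con s t U → P s t U := by
  intro n
  induction n using Nat.strong_induction_on with
  | _ n ih =>
    intro U hn hc
    by_cases hU : U = Finset.univ
    · subst hU
      refine ⟨0, 0, ?_, ?_, ?_, ?_⟩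
      · intro v; simp [bd]
      · intro v; simp [bd]
      · intro e he; exact absurd rfl he
      · intro e he
        exact absurd ⟨Finset.mem_univ _, Finset.mem_univ _⟩ he
    · obtain ⟨W, Z, a, h⟩ := exists_ear s t hb U hU
      refine p_step hc h (ih (U ∪ W)ᶜ.card ?_ (U ∪ W) rfl (con_step hc h))
      rw [← hn]
      apply Finset.card_lt_card
      rw [Finset.ssubset_iff_of_subset
        (Finset.compl_subset_compl.mpr Finset.subset_union_left)]
      refine ⟨a, ?_, ?_⟩
      · rw [Finset.mem_compl]
        exact Finset.disjoint_left.mp h.disj h.aW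
      · rw [Finset.mem_compl, not_not]
        exact Finset.mem_union_right _ h.aW

end EF

/-- **The 8-flow theorem** (Jaeger, Kilpatrick): every bridgeless multigraph has a nowhere-zero flow with
values in F_2^3. -/
theorem eight_flow {V E : Type*} [Fintype V] [DecidableEq V] [Fintype E] [DecidableEq E]
    {s t : E → V} (hb : Bridgeless s t) :
    ∃ f : E → K3, IsFlow s t f ∧ ∀ e, f e ≠ 0 := by
  have hc : EF.Con s t ∅ := by
    intro A _
    refine ⟨∅, ?_, ?_⟩
    · intro e
      simp [EF.Crs]
    · intro u hu
      simp at hu
  obtain ⟨c, g, hcf, hgf, -, hne⟩ := EF.p_all hb _ ∅ rfl hc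
  refine ⟨fun e => ![c e, g e 0, g e 1], ?_, ?_⟩
  · intro v
    have h1 := hcf v
    have h2 := congrFun (hgf v) 0
    have h3 := congrFun (hgf v) 1
    unfold bd at h1 h2 h3 ⊢
    rw [Finset.sum_apply] at h2 h3
    funext i
    rw [Finset.sum_apply]
    fin_cases i
    · refine Eq.trans ?_ h1
      refine Finset.sum_congr rfl fun e _ => ?_
      split_ifs <;> simp
    · refine Eq.trans ?_ h2
      refine Finset.sum_congr rfl fun e _ => ?_
      split_ifs <;> simp
    · refine Eq.trans ?_ h3
      refine Finset.sum_congr rfl fun e _ => ?_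
      split_ifs <;> simp
  · intro e he
    have h0 := congrFun he 0
    have h1 := congrFun he 1
    have h2 := congrFun he 2
    simp at h0 h1 h2
    rcases hne e (by simp [EF.Ins]) with h | h
    · exact h h0
    · apply h
      funext i
      fin_cases i
      · exact h1
      · exact h2

end CDC
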