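import Pool.Agent.helper56.CDC.Def

/-!
# EF-Base : basic facts on cuts, boundaries and corrections of flows (8-flow theorem, part B)
-/

namespace CDC

namespace EF

/-- the group F_2^2 -/
abbrev K2 : Type := Fin 2 → ZMod 2

variable {V E : Type*} [Fintype V] [DecidableEq V] [Fintype E] [DecidableEq E]

/-- the edge e crosses A -/
def Crs (s t : E → V) (A : Finset V) (e : E) : Prop := ¬ (s e ∈ A ↔ t e ∈ A)

instance (s t : E → V) (A : Finset V) (e : E) : Decidable (Crs s t A e) := by
  unfold Crs; infer_instance

/-- both ends of e are in U -/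
def Ins (s t : E → V) (U : Finset V) (e : E) : Prop := s e ∈ U ∧ t e ∈ U

instance (s t : E → V) (A : Finset V) (e : E) : Decidable (Ins s t A e) := by
  unfold Ins; infer_instance

/-- the edges between X and Y -/
def bt (s t : E → V) (X Y : Finset V) : Finset E :=
  Finset.univ.filter (fun e => (s e ∈ X ∧ t e ∈ Y) ∨ (s e ∈ Y ∧ t e ∈ X))

/-- the boundary of the sum -/
theorem bd_add {A : Type*} [AddCommGroup A] (s t : E → V) (f g : E → A) (v : V) :
    bd s t (f + g) v = bd s t f v + bd s t g v := by
  unfold bd
  rw [← Finset.sum_add_distrib]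
  refine Finset.sum_congr rfl fun e _ => ?_
  simp only [Pi.add_apply]
  split_ifs <;> abel

/-- sums of flows are flows -/
theorem IsFlow.add {A : Type*} [AddCommGroup A] {s t : E → V} {f g : E → A}
    (hf : IsFlow s t f) (hg : IsFlow s t g) : IsFlow s t (f + g) := by
  intro v
  rw [bd_add, hf v, hg v, add_zero]

/-- **Cut parity.**  The sum over the vertices of X of the boundary is the sum over the cut of X.
Proof: exchange the sums; an edge with both ends in X contributes f e + f e = 0. -/
theorem cut_sum {A : Type*} [AddCommGroup A] (h2 : ∀ x : A, x + x = 0) (s t : E → V) (f : E → A)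
    (X : Finset V) : ∑ v ∈ X, bd s t f v = ∑ e ∈ cut s t X, f e := by
  unfold bd
  rw [Finset.sum_comm]
  have h1 : ∀ e : E, ∑ v ∈ X, ((if s e = v then f e else 0) + (if t e = v then f e else 0)) =
      if e ∈ cut s t X then f e else 0 := by
    intro e
    rw [Finset.sum_add_distrib, Finset.sum_ite_eq, Finset.sum_ite_eq]
    have h3 : e ∈ cut s t X ↔ ¬ (s e ∈ X ↔ t e ∈ X) := by simp [cut]
    by_cases hs : s e ∈ X <;> by_cases ht : t e ∈ X <;> simp [h3, hs, ht, h2]
  rw [Finset.sum_congr rfl fun e _ => h1 e, Finset.sum_ite_mem, Finset.univ_inter]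

/-- A flow sums to zero over every cut. -/
theorem flow_cut {A : Type*} [AddCommGroup A] (h2 : ∀ x : A, x + x = 0) {s t : E → V} {f : E → A}
    (hf : IsFlow s t f) (X : Finset V) : ∑ e ∈ cut s t X, f e = 0 := by
  rw [← cut_sum h2, Finset.sum_eq_zero fun v _ => hf v]

/-- The boundary of a single edge. -/
theorem bd_single (s t : E → V) (e : E) (w : V) :
    bd s t (Pi.single e (1 : ZMod 2)) w =
      (if s e = w then (1 : ZMod 2) else 0) + (if t e = w then (1 : ZMod 2) else 0) := by
  unfold bd
  rw [Finset.sum_eq_single e]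
  · simp
  · intro b _ hb
    simp [Pi.single_eq_of_ne hb]
  · intro h
    exact absurd (Finset.mem_univ e) h

private theorem z2_add_self : ∀ x : ZMod 2, x + x = 0 := by decide

/-- **Connection.**  If every set A which contains u and not v is crossed by an edge of S, then there is a
chain T supported in S with boundary u + v.
Proof: let A be the set of the w for which there is such a chain with boundary u + w.  u is in A (T = 0).
If v is not in A, some e in S crosses A, say s e in A and t e not in A; adding the single edge e to the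
chain of s e gives a chain for t e, a contradiction (and symmetrically). -/
theorem reach (s t : E → V) (S : E → Prop) (u v : V)
    (h : ∀ A : Finset V, u ∈ A → v ∉ A → ∃ e, S e ∧ Crs s t A e) :
    ∃ T : E → ZMod 2, (∀ e, T e ≠ 0 → S e) ∧
      ∀ w, bd s t T w = (if u = w then (1 : ZMod 2) else 0) + (if v = w then (1 : ZMod 2) else 0) := by
  classical
  set A : Finset V := Finset.univ.filter (fun w0 => ∃ T : E → ZMod 2, (∀ e, T e ≠ 0 → S e) ∧
    ∀ w, bd s t T w = (if u = w then (1 : ZMod 2) else 0) +
      (if w0 = w then (1 : ZMod 2) else 0)) with hA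
  have hmem : ∀ w0, w0 ∈ A ↔ ∃ T : E → ZMod 2, (∀ e, T e ≠ 0 → S e) ∧
      ∀ w, bd s t T w = (if u = w then (1 : ZMod 2) else 0) +
        (if w0 = w then (1 : ZMod 2) else 0) := by
    intro w0
    rw [hA, Finset.mem_filter]
    exact ⟨fun h => h.2, fun h => ⟨Finset.mem_univ _, h⟩⟩
  by_contra hcon
  have hv : v ∉ A := fun h => hcon ((hmem v).1 h)
  have hu : u ∈ A := by
    refine (hmem u).2 ⟨0, fun e he => absurd rfl he, fun w => ?_⟩
    rw [z2_add_self]
    unfold bd
    simp
  obtain ⟨e, heS, hecr⟩ := h A hu hv
  have key : ∀ a b, a ∈ A → ((s e = a ∧ t e = b) ∨ (s e = b ∧ t e = a)) → b ∈ A := by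
    intro a b ha hab
    obtain ⟨T, hTS, hTb⟩ := (hmem a).1 ha
    refine (hmem b).2 ⟨T + Pi.single e 1, ?_, ?_⟩
    · intro x hx
      by_cases hxe : x = e
      · rw [hxe]
        exact heS
      · refine hTS x fun h0 => hx ?_
        rw [Pi.add_apply, h0, Pi.single_eq_of_ne hxe, add_zero]
    · intro w
      rw [bd_add, hTb, bd_single]
      rcases hab with ⟨h1, h2⟩ | ⟨h1, h2⟩
      · rw [h1, h2]
        linear_combination z2_add_self (if a = w then (1 : ZMod 2) else 0)
      · rw [h1, h2]
        linear_combination z2_add_self (if a = w then (1 : ZMod 2) else 0)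
  unfold Crs at hecr
  by_cases hs : s e ∈ A
  · exact hecr ⟨fun _ => key _ _ hs (Or.inl ⟨rfl, rfl⟩), fun _ => hs⟩
  · refine hecr ⟨fun h => absurd h hs, fun ht => ?_⟩
    exact key _ _ ht (Or.inr ⟨rfl, rfl⟩)

/-- **Correction.**  Let S be a set of free edges, B a set of edges not in S, each of which can be completed
by free edges to a flow.  Then every flow g0 can be changed on the edges of S and B only, so that it takes
the value k on all edges of B.
Proof: g = g0 + sum over e in B of (T_e + single e) times (k + g0 e); for x in B only the term e = x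
contributes, g x = g0 x + (k + g0 x) = k. -/
theorem correct (s t : E → V) (S : E → Prop) (B : Finset E) (k : K2) (hB : ∀ e ∈ B, ¬ S e)
    (hT : ∀ e ∈ B, ∃ T : E → ZMod 2, (∀ x, T x ≠ 0 → S x) ∧
      ∀ w, bd s t T w = bd s t (Pi.single e (1 : ZMod 2)) w)
    (g0 : E → K2) (hg : IsFlow s t g0) :
    ∃ g : E → K2, IsFlow s t g ∧ (∀ x, ¬ S x → x ∉ B → g x = g0 x) ∧ ∀ x ∈ B, g x = k := by
  classical
  have hk2 : ∀ x : K2, x + x = 0 := fun x => by
    funext i
    exact z2_add_self _
  choose! T hTS hTb using hT
  let φ : E → E → ZMod 2 := fun e => T e + Pi.single e 1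
  have hφ : ∀ e ∈ B, IsFlow s t (φ e) := by
    intro e he v
    show bd s t (T e + Pi.single e 1) v = 0
    rw [bd_add, hTb e he, z2_add_self]
  let ψ : E → E → K2 := fun e x => φ e x • (k + g0 e)
  have hψ : ∀ e ∈ B, IsFlow s t (ψ e) := by
    intro e he v
    have h1 : bd s t (ψ e) v = bd s t (φ e) v • (k + g0 e) := by
      unfold bd
      rw [Finset.sum_smul]
      refine Finset.sum_congr rfl fun x _ => ?_
      rw [add_smul]
      congr 1 <;> split_ifs <;> simp [ψ]
    rw [h1, hφ e he v, zero_smul]
  have hsum : ∀ B' : Finset E, B' ⊆ B → IsFlow s t (∑ e ∈ B', ψ e) := by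
    intro B'
    induction B' using Finset.induction_on with
    | empty =>
      intro _ v
      simp [bd]
    | insert a B'' ha ih =>
      intro hsub
      rw [Finset.sum_insert ha]
      exact IsFlow.add (hψ a (hsub (Finset.mem_insert_self _ _)))
        (ih (fun x hx => hsub (Finset.mem_insert_of_mem hx)))
  refine ⟨g0 + ∑ e ∈ B, ψ e, IsFlow.add hg (hsum B subset_rfl), ?_, ?_⟩
  · intro x hxS hxB
    rw [Pi.add_apply, Finset.sum_apply, Finset.sum_eq_zero, add_zero]
    intro e he
    have h1 : T e x = 0 := by
      by_contra h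
      exact hxS (hTS e he x h)
    have h2 : x ≠ e := fun h => hxB (h ▸ he)
    simp [ψ, φ, h1, Pi.single_eq_of_ne h2]
  · intro x hx
    rw [Pi.add_apply, Finset.sum_apply, Finset.sum_eq_single x]
    · have h1 : T x x = 0 := by
        by_contra h
        exact hB x hx (hTS x hx x h)
      have h3 : ψ x x = k + g0 x := by
        simp [ψ, φ, h1]
      rw [h3, add_comm k, ← add_assoc, hk2, zero_add]
    · intro e he hne
      have h1 : T e x = 0 := by
        by_contra h
        exact hB x hx (hTS e he x h)
      simp [ψ, φ, h1, Pi.single_eq_of_ne hne.symm]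
    · intro h
      exact absurd hx h

end EF

end CDC
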