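import Pool.Agent.helper11.EF.Base

/-!
# EF-EarX : the minimal set X of the ear step (8-flow theorem, part B)
-/

namespace CDC

namespace EF

variable {V E : Type*} [Fintype V] [DecidableEq V] [Fintype E] [DecidableEq E]

/-- One counting of edges. -/
theorem earX_count (s t : E → V) (U X A : Finset V) (hd : Disjoint X U) (hA : A ⊆ X) :
    (bt s t A (A ∪ U)ᶜ).card + (bt s t (X \ A) ((X \ A) ∪ U)ᶜ).card ≤
      2 * (Finset.univ.filter (fun e => Ins s t X e ∧ Crs s t A e)).card +
        (bt s t X (X ∪ U)ᶜ).card := by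
  have hXU : ∀ v, v ∈ X → v ∉ U := fun v h1 h2 => (Finset.disjoint_left.mp hd) h1 h2
  have hAX : ∀ v, v ∈ A → v ∈ X := fun v h => hA h
  unfold bt Ins Crs
  simp only [Finset.card_filter, Finset.mul_sum]
  rw [← Finset.sum_add_distrib, ← Finset.sum_add_distrib]
  refine Finset.sum_le_sum fun e _ => ?_
  simp only [Finset.mem_compl, Finset.mem_union, Finset.mem_sdiff]
  have h1 := hXU (s e)
  have h2 := hXU (t e)
  have h3 := hAX (s e)
  have h4 := hAX (t e)
  by_cases a1 : s e ∈ A <;> by_cases a2 : t e ∈ A <;> by_cases a3 : s e ∈ X <;>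
    by_cases a4 : t e ∈ X <;> by_cases a5 : s e ∈ U <;> by_cases a6 : t e ∈ U <;>
    simp_all

/-- **The minimal set X.**  For U not everything there is a nonempty X disjoint from U, with at most one
edge between X and the rest of the complement of U, and such that G[X] is connected and bridgeless.
PROOF.  Take X of minimal cardinality among the nonempty X disjoint from U with
(bt X (X ∪ U)ᶜ).card ≤ 1 (Uᶜ is a candidate).  Let A be a nonempty proper subset of X and suppose that at
most one edge inside X crosses A.  By minimality the sets A and X \ A have at least two edges to the rest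
of Uᶜ: 4 ≤ (bt A (A ∪ U)ᶜ).card + (bt (X \ A) ((X \ A) ∪ U)ᶜ).card.  Count the edges: an edge inside X
crossing A is counted twice, an edge between X and (X ∪ U)ᶜ once, no other edge is counted.  So the right
hand side is ≤ 2 * 1 + 1 = 3, a contradiction. -/
theorem exists_X (s t : E → V) (U : Finset V) (hU : U ≠ Finset.univ) :
    ∃ X : Finset V, X.Nonempty ∧ Disjoint X U ∧ (bt s t X (X ∪ U)ᶜ).card ≤ 1 ∧
      ∀ A : Finset V, A.Nonempty → A ⊂ X →
        2 ≤ (Finset.univ.filter (fun e => Ins s t X e ∧ Crs s t A e)).card := by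
  classical
  have hne : (Uᶜ : Finset V).Nonempty := by
    rw [Finset.nonempty_iff_ne_empty]
    intro h
    exact hU ((Finset.compl_eq_empty_iff U).mp h)
  have hcand : ((Finset.univ : Finset (Finset V)).filter (fun X => X.Nonempty ∧ Disjoint X U ∧
      (bt s t X (X ∪ U)ᶜ).card ≤ 1)).Nonempty := by
    refine ⟨Uᶜ, ?_⟩
    rw [Finset.mem_filter]
    refine ⟨Finset.mem_univ _, hne, disjoint_compl_left, ?_⟩
    have : (Uᶜ ∪ U)ᶜ = (∅ : Finset V) := by
      rw [Finset.union_comm, Finset.union_compl, Finset.compl_univ]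
    rw [this]
    simp [bt]
  obtain ⟨X, hX, hmin⟩ := Finset.exists_min_image _ (fun X : Finset V => X.card) hcand
  rw [Finset.mem_filter] at hX
  obtain ⟨-, hXne, hXd, hX1⟩ := hX
  refine ⟨X, hXne, hXd, hX1, fun A hAne hAX => ?_⟩
  by_contra hlt
  have hsub : A ⊆ X := hAX.subset
  have key : ∀ B : Finset V, B.Nonempty → B ⊂ X → 2 ≤ (bt s t B (B ∪ U)ᶜ).card := by
    intro B hB hBX
    by_contra h
    have h1 := hmin B (by
      rw [Finset.mem_filter]
      exact ⟨Finset.mem_univ _, hB, Disjoint.mono_left hBX.subset hXd, by omega⟩)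
    have h2 := Finset.card_lt_card hBX
    omega
  have hA2 := key A hAne hAX
  have hB2 := key (X \ A) (Finset.sdiff_nonempty.mpr hAX.2)
    (by
      refine ⟨Finset.sdiff_subset, fun h => ?_⟩
      obtain ⟨a, ha⟩ := hAne
      exact (Finset.mem_sdiff.mp (h (hsub ha))).2 ha)
  have hc := earX_count s t U X A hXd hsub
  omega

end EF

end CDC
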