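import Pool.Agent.helper11.EF.Min
import Pool.Agent.helper11.EF.EarX

/-!
# EF-Ear : the ear step of the 8-flow theorem (part B)

proofs: helper59
-/

namespace CDC

namespace EF

variable {V E : Type*} [Fintype V] [DecidableEq V] [Fintype E] [DecidableEq E]

/-- An ear (W, Z, a) of the vertex set U: W is disjoint from U, Z is an even edge set inside W which
connects W, and W is attached to U in one of three ways. -/
structure Ear (s t : E → V) (U W : Finset V) (Z : Finset E) (a : V) : Prop where
  aW : a ∈ W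
  disj : Disjoint W U
  even : EvSet s t Z
  ins : ∀ e ∈ Z, Ins s t W e
  conn : ∀ A : Finset V, (∀ e ∈ Z, ¬ Crs s t A e) → ∀ w ∈ W, (w ∈ A ↔ a ∈ A)
  att : (∃ X : Finset V, (∀ e, ¬ Crs s t X e) ∧ W ⊆ X ∧ Disjoint X U) ∨
    (∃ e1 e2, e1 ≠ e2 ∧ e1 ∈ bt s t W U ∧ e2 ∈ bt s t W U) ∨
    (∃ e1 e', bt s t W U = {e1} ∧ ¬ Ins s t (U ∪ W) e' ∧
      (∀ f : E → K2, IsFlow s t f → f e1 = f e') ∧ (∀ f : E → ZMod 2, IsFlow s t f → f e1 = f e'))

private theorem ear_triv (s t : E → V) (U : Finset V) (a : V) (ha : a ∉ U)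
    (hatt : (∃ X : Finset V, (∀ e, ¬ Crs s t X e) ∧ {a} ⊆ X ∧ Disjoint X U) ∨
    (∃ e1 e2, e1 ≠ e2 ∧ e1 ∈ bt s t {a} U ∧ e2 ∈ bt s t {a} U) ∨
    (∃ e1 e', bt s t {a} U = {e1} ∧ ¬ Ins s t (U ∪ {a}) e' ∧
      (∀ f : E → K2, IsFlow s t f → f e1 = f e') ∧
      (∀ f : E → ZMod 2, IsFlow s t f → f e1 = f e'))) :
    Ear s t U {a} ∅ a where
  aW := Finset.mem_singleton_self a
  disj := Finset.disjoint_singleton_left.2 ha
  even := fun v => by simp
  ins := fun e he => absurd he (Finset.notMem_empty e)
  conn := fun A _ w hw => by rw [Finset.mem_singleton.1 hw]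
  att := hatt

private theorem ear_end {s t : E → V} {X U : Finset V} {e : E} (he : e ∈ bt s t X U) :
    ∃ a ∈ X, ∀ W : Finset V, a ∈ W → e ∈ bt s t W U := by
  unfold bt at he
  rw [Finset.mem_filter] at he
  rcases he.2 with ⟨h1, h2⟩ | ⟨h1, h2⟩
  · exact ⟨s e, h1, fun W hW => Finset.mem_filter.2 ⟨Finset.mem_univ _, Or.inl ⟨hW, h2⟩⟩⟩
  · exact ⟨t e, h2, fun W hW => Finset.mem_filter.2 ⟨Finset.mem_univ _, Or.inr ⟨h1, hW⟩⟩⟩

private theorem ear_cut {s t : E → V} {X U : Finset V} (hd : Disjoint X U) (e : E) :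
    e ∈ cut s t X ↔ e ∈ bt s t X U ∨ e ∈ bt s t X (X ∪ U)ᶜ := by
  have h1 : s e ∈ X → s e ∉ U := fun h => Finset.disjoint_left.1 hd h
  have h2 : t e ∈ X → t e ∉ U := fun h => Finset.disjoint_left.1 hd h
  unfold cut bt
  simp only [Finset.mem_filter, Finset.mem_univ, true_and, Finset.mem_compl, Finset.mem_union]
  tauto

private theorem ear_two (s t : E → V) {U X : Finset V} (hXd : Disjoint X U)
    (hXc : ∀ A : Finset V, A.Nonempty → A ⊂ X →
        2 ≤ (Finset.univ.filter (fun e => Ins s t X e ∧ Crs s t A e)).card)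
    {e1 e2 : E} (he : e1 ≠ e2) {a b : V} (ha : a ∈ X) (hb : b ∈ X) (hab : a ≠ b)
    (h1 : ∀ W : Finset V, a ∈ W → e1 ∈ bt s t W U)
    (h2 : ∀ W : Finset V, b ∈ W → e2 ∈ bt s t W U) :
    ∃ (W : Finset V) (Z : Finset E) (a : V), Ear s t U W Z a := by
  classical
  obtain ⟨Z0, hZ0, hev, hcr⟩ := exists_even s t (Finset.univ.filter (Ins s t X)) a b hab (by
    intro A haA hbA
    have h3 := hXc (A ∩ X) ⟨a, Finset.mem_inter.2 ⟨haA, ha⟩⟩
      ⟨Finset.inter_subset_right, fun hsub => hbA (Finset.mem_inter.1 (hsub hb)).1⟩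
    refine h3.trans (le_of_eq (congrArg Finset.card ?_))
    ext e
    simp only [Finset.mem_filter, Finset.mem_univ, true_and]
    constructor
    · rintro ⟨h4, h5⟩
      refine ⟨h4, ?_⟩
      unfold Crs at h5 ⊢
      unfold Ins at h4
      simpa only [Finset.mem_inter, h4.1, h4.2, and_true] using h5
    · rintro ⟨h4, h5⟩
      refine ⟨h4, ?_⟩
      unfold Crs at h5 ⊢
      unfold Ins at h4
      simpa only [Finset.mem_inter, h4.1, h4.2, and_true] using h5)
  obtain ⟨W, hW⟩ : ∃ W : Finset V, ∀ w, w ∈ W ↔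
      ∀ A : Finset V, a ∈ A → (∀ e ∈ Z0, ¬ Crs s t A e) → w ∈ A := by
    refine ⟨Finset.univ.filter (fun w => ∀ A : Finset V, a ∈ A →
      (∀ e ∈ Z0, ¬ Crs s t A e) → w ∈ A), fun w => ?_⟩
    rw [Finset.mem_filter]
    exact ⟨fun h => h.2, fun h => ⟨Finset.mem_univ _, h⟩⟩
  have hncW : ∀ e ∈ Z0, (s e ∈ W ↔ t e ∈ W) := by
    intro e heZ
    rw [hW, hW]
    constructor
    · intro h A hA hA2
      have h3 := h A hA hA2
      have h4 := hA2 e heZ
      unfold Crs at h4
      rw [not_not] at h4
      exact h4.1 h3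
    · intro h A hA hA2
      have h3 := h A hA hA2
      have h4 := hA2 e heZ
      unfold Crs at h4
      rw [not_not] at h4
      exact h4.2 h3
  have hWX : W ⊆ X := by
    intro w hw
    refine (hW w).1 hw X ha ?_
    intro e heZ
    have h3 : Ins s t X e := (Finset.mem_filter.1 (hZ0 heZ)).2
    unfold Crs
    unfold Ins at h3
    simp [h3.1, h3.2]
  have haW : a ∈ W := (hW a).2 fun A hA _ => hA
  have hbW : b ∈ W := by
    refine (hW b).2 fun A hA hA2 => ?_
    by_contra hbA
    obtain ⟨e, heZ, hec⟩ := hcr A hA hbA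
    exact hA2 e heZ hec
  have hmain : ∀ A : Finset V, a ∈ A → (∀ e ∈ Z0.filter (Ins s t W), ¬ Crs s t A e) →
      W ⊆ A := by
    intro A haA hA w hw
    have h3 := (hW w).1 hw (A ∪ Wᶜ) (Finset.mem_union_left _ haA) (by
      intro e heZ
      have h4 := hncW e heZ
      unfold Crs
      rw [not_not]
      by_cases h5 : s e ∈ W
      · have h6 := h4.1 h5
        have h7 := hA e (Finset.mem_filter.2 ⟨heZ, h5, h6⟩)
        unfold Crs at h7
        rw [not_not] at h7
        simp only [Finset.mem_union, Finset.mem_compl, h5, h6, not_true_eq_false, or_false]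
        exact h7
      · have h6 : t e ∉ W := fun h => h5 (h4.2 h)
        simp only [Finset.mem_union, Finset.mem_compl, h5, h6, not_false_eq_true, or_true])
    rcases Finset.mem_union.1 h3 with h4 | h4
    · exact h4
    · exact absurd hw (Finset.mem_compl.1 h4)
  refine ⟨W, Z0.filter (Ins s t W), a, ?_⟩
  refine ⟨haW, Finset.disjoint_of_subset_left hWX hXd, ?_, ?_, ?_, ?_⟩
  · intro v
    by_cases hv : v ∈ W
    · have e3 : (Z0.filter (Ins s t W)).filter (fun e => s e = v) =
          Z0.filter (fun e => s e = v) := by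
        ext e
        simp only [Finset.mem_filter]
        constructor
        · rintro ⟨⟨h4, -⟩, h5⟩
          exact ⟨h4, h5⟩
        · rintro ⟨h4, h5⟩
          have h6 : s e ∈ W := by rw [h5]; exact hv
          exact ⟨⟨h4, h6, (hncW e h4).1 h6⟩, h5⟩
      have e4 : (Z0.filter (Ins s t W)).filter (fun e => t e = v) =
          Z0.filter (fun e => t e = v) := by
        ext e
        simp only [Finset.mem_filter]
        constructor
        · rintro ⟨⟨h4, -⟩, h5⟩
          exact ⟨h4, h5⟩
        · rintro ⟨h4, h5⟩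
          have h6 : t e ∈ W := by rw [h5]; exact hv
          exact ⟨⟨h4, (hncW e h4).2 h6, h6⟩, h5⟩
      rw [e3, e4]
      exact hev v
    · have e3 : (Z0.filter (Ins s t W)).filter (fun e => s e = v) = ∅ := by
        rw [Finset.eq_empty_iff_forall_notMem]
        intro e he3
        simp only [Finset.mem_filter] at he3
        exact hv (he3.2 ▸ he3.1.2.1)
      have e4 : (Z0.filter (Ins s t W)).filter (fun e => t e = v) = ∅ := by
        rw [Finset.eq_empty_iff_forall_notMem]
        intro e he3
        simp only [Finset.mem_filter] at he3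
        exact hv (he3.2 ▸ he3.1.2.2)
      rw [e3, e4]
      simp
  · intro e he3
    exact (Finset.mem_filter.1 he3).2
  · intro A hA w hw
    by_cases haA : a ∈ A
    · exact ⟨fun _ => haA, fun _ => hmain A haA hA hw⟩
    · have h3 := hmain Aᶜ (Finset.mem_compl.2 haA) (by
        intro e he3
        have h4 := hA e he3
        unfold Crs at h4 ⊢
        simp only [Finset.mem_compl]
        intro h5
        exact h4 fun h6 => h5 (not_iff_not.2 h6)) hw
      exact ⟨fun h => absurd h (Finset.mem_compl.1 h3), fun h => absurd h haA⟩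
  · exact Or.inr (Or.inl ⟨e1, e2, he, h1 W haW, h2 W hbW⟩)

/-- **Existence of an ear.**
PROOF.  Take X from exists_X.
Case 0: no edge crosses X.  Take a in X, W = {a}, Z = ∅ (first alternative of att).
Otherwise cut X is not empty, and it does not have cardinality 1 (hb), so it has at least two elements; it is
the disjoint union of bt X U and bt X (X ∪ U)ᶜ.
Case 2: bt X U has two different elements e1, e2, with ends a, b in X.  If a = b: W = {a}, Z = ∅.  If a ≠ b:
exists_even with S = the edges inside X (for a in A, b not in A apply exists_X to A ∩ X: the edges inside X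
crossing A are those crossing A ∩ X) gives Z0.  Let W be the set of the w which lie in every A with a in A
which is not crossed by an edge of Z0.  Then no edge of Z0 crosses W (W is the intersection of such sets),
W ⊆ X, b is in W.  Z = the edges of Z0 inside W: even, because all the edges of Z0 at a vertex of W are inside
W.  conn: let A be not crossed by Z, w in W; if a is in A, then A ∪ Wᶜ is not crossed by Z0 and contains a, so
w is in A; if a is not in A, use the complement of A.  Second alternative of att (b is in W).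
Case 1: otherwise bt X U = {e1} and bt X (X ∪ U)ᶜ = {e'}, cut X = {e1, e'}, e1 ≠ e'.  W = {a}, a the end of e1
in X, Z = ∅.  bt W U = {e1}; e' has an end outside X ∪ U, so it is not inside U ∪ W; f e1 = f e' by
flow_cut (exponent 2). -/
theorem exists_ear (s t : E → V) (hb : Bridgeless s t) (U : Finset V) (hU : U ≠ Finset.univ) :
    ∃ (W : Finset V) (Z : Finset E) (a : V), Ear s t U W Z a := by
  classical
  obtain ⟨X, ⟨x0, hx0⟩, hXd, hX1, hXc⟩ := exists_X s t U hU
  have hXU : ∀ {v}, v ∈ X → v ∉ U := fun h => Finset.disjoint_left.1 hXd h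
  by_cases h0 : ∃ e, Crs s t X e
  swap
  · refine ⟨{x0}, ∅, x0, ear_triv s t U x0 (hXU hx0) (Or.inl ⟨X, ?_, ?_, hXd⟩)⟩
    · intro e he
      exact h0 ⟨e, he⟩
    · exact Finset.singleton_subset_iff.2 hx0
  obtain ⟨e0, he0⟩ := h0
  have hcut : cut s t X = bt s t X U ∪ bt s t X (X ∪ U)ᶜ := by
    ext e
    rw [ear_cut hXd, Finset.mem_union]
  have hcard : 2 ≤ (bt s t X U).card + (bt s t X (X ∪ U)ᶜ).card := by
    have h1 := hb X
    have h2 : 0 < (cut s t X).card := by
      refine Finset.card_pos.2 ⟨e0, ?_⟩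
      unfold cut
      rw [Finset.mem_filter]
      exact ⟨Finset.mem_univ _, he0⟩
    have h3 := Finset.card_union_le (bt s t X U) (bt s t X (X ∪ U)ᶜ)
    rw [← hcut] at h3
    omega
  rcases Nat.lt_or_ge (bt s t X U).card 2 with h2 | h2
  · -- one edge to U, one edge to the rest
    obtain ⟨e1, he1⟩ := Finset.card_eq_one.1 (by omega : (bt s t X U).card = 1)
    obtain ⟨e', he'⟩ := Finset.card_eq_one.1 (by omega : (bt s t X (X ∪ U)ᶜ).card = 1)
    obtain ⟨a, haX, haW⟩ := ear_end (by rw [he1]; exact Finset.mem_singleton_self e1 :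
      e1 ∈ bt s t X U)
    have hne : e1 ≠ e' := by
      intro h
      have h3 : e1 ∈ bt s t X U := by rw [he1]; exact Finset.mem_singleton_self e1
      have h4 : e1 ∈ bt s t X (X ∪ U)ᶜ := by rw [he', h]; exact Finset.mem_singleton_self e'
      unfold bt at h3 h4
      simp only [Finset.mem_filter, Finset.mem_univ, true_and, Finset.mem_compl,
        Finset.mem_union] at h3 h4
      have h5 := @hXU (s e1)
      have h6 := @hXU (t e1)
      tauto
    have hflow : ∀ {A : Type} [AddCommGroup A], (∀ x : A, x + x = 0) → ∀ f : E → A,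
        IsFlow s t f → f e1 = f e' := by
      intro A _ hA2 f hf
      have h3 := flow_cut hA2 hf X
      rw [hcut, he1, he', ← Finset.insert_eq, Finset.sum_pair hne] at h3
      calc f e1 = f e1 + (f e1 + f e') := by rw [h3, add_zero]
        _ = (f e1 + f e1) + f e' := by rw [add_assoc]
        _ = f e' := by rw [hA2, zero_add]
    have hz : ∀ x : ZMod 2, x + x = 0 := by decide
    refine ⟨{a}, ∅, a, ear_triv s t U a (hXU haX) (Or.inr (Or.inr ⟨e1, e', ?_, ?_, ?_, ?_⟩))⟩
    · ext e
      rw [Finset.mem_singleton]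
      constructor
      · intro h3
        have h4 : e ∈ bt s t X U := by
          unfold bt at h3 ⊢
          rw [Finset.mem_filter] at h3 ⊢
          refine ⟨h3.1, ?_⟩
          rcases h3.2 with ⟨h5, h6⟩ | ⟨h5, h6⟩
          · rw [Finset.mem_singleton] at h5
            exact Or.inl ⟨by rw [h5]; exact haX, h6⟩
          · rw [Finset.mem_singleton] at h6
            exact Or.inr ⟨h5, by rw [h6]; exact haX⟩
        rw [he1] at h4
        exact Finset.mem_singleton.1 h4
      · intro h3
        rw [h3]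
        exact haW {a} (Finset.mem_singleton_self a)
    · intro h3
      have h4 : e' ∈ bt s t X (X ∪ U)ᶜ := by rw [he']; exact Finset.mem_singleton_self e'
      unfold bt at h4
      unfold Ins at h3
      simp only [Finset.mem_filter, Finset.mem_univ, true_and, Finset.mem_compl,
        Finset.mem_union, Finset.mem_singleton] at h3 h4
      rcases h4 with ⟨h5, h6⟩ | ⟨h5, h6⟩
      · rcases h3.2 with h7 | h7
        · exact h6 (Or.inr h7)
        · exact h6 (Or.inl (by rw [h7]; exact haX))
      · rcases h3.1 with h7 | h7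
        · exact h5 (Or.inr h7)
        · exact h5 (Or.inl (by rw [h7]; exact haX))
    · intro f hf
      exact hflow (fun x => by funext i; exact hz _) f hf
    · intro f hf
      exact hflow hz f hf
  · obtain ⟨e1, he1, e2, he2, hne⟩ := Finset.one_lt_card.1 (by omega : 1 < (bt s t X U).card)
    obtain ⟨a, haX, haW⟩ := ear_end he1
    obtain ⟨b, hbX, hbW⟩ := ear_end he2
    by_cases hab : a = b
    · subst hab
      exact ⟨{a}, ∅, a, ear_triv s t U a (hXU haX) (Or.inr (Or.inl ⟨e1, e2, hne,
        haW _ (Finset.mem_singleton_self a), hbW _ (Finset.mem_singleton_self a)⟩))⟩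
    · exact ear_two s t hXd hXc hne haX hbX hab haW hbW

end EF

end CDC
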