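import Pool.Agent.helper11.EF.Base

/-!
# EF-Min : a minimal edge set with all a-b cuts of size at least two is even (8-flow theorem, part B)

s, t : E -> V are the ends of the edges.  An edge e crosses A if exactly one of its ends is in A.
-/

namespace CDC

namespace EF

variable {V E : Type*} [Fintype V] [DecidableEq V] [Fintype E] [DecidableEq E]

/-- the number of edges of Z which cross A -/
private def dZ (s t : E → V) (Z : Finset E) (A : Finset V) : ℕ := (Z.filter (Crs s t A)).card

private theorem dZ_sum (s t : E → V) (Z : Finset E) (A : Finset V) :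
    dZ s t Z A = ∑ e ∈ Z, if Crs s t A e then 1 else 0 := by
  unfold dZ
  rw [Finset.card_filter]

private theorem dZ_submod (s t : E → V) (Z : Finset E) (A B : Finset V) :
    dZ s t Z (A ∩ B) + dZ s t Z (A ∪ B) ≤ dZ s t Z A + dZ s t Z B := by
  rw [dZ_sum, dZ_sum, dZ_sum, dZ_sum, ← Finset.sum_add_distrib, ← Finset.sum_add_distrib]
  refine Finset.sum_le_sum fun e _ => ?_
  unfold Crs
  by_cases h1 : s e ∈ A <;> by_cases h2 : t e ∈ A <;> by_cases h3 : s e ∈ B <;>
    by_cases h4 : t e ∈ B <;> simp [h1, h2, h3, h4]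

private theorem dZ_compl (s t : E → V) (Z : Finset E) (A : Finset V) :
    dZ s t Z Aᶜ = dZ s t Z A := by
  rw [dZ_sum, dZ_sum]
  refine Finset.sum_congr rfl fun e _ => ?_
  unfold Crs
  by_cases h1 : s e ∈ A <;> by_cases h2 : t e ∈ A <;> simp [h1, h2]

/-- the tight sets which avoid v -/
private def TT (s t : E → V) (Z : Finset E) (a b v : V) : Finset (Finset V) :=
  Finset.univ.filter (fun A => a ∈ A ∧ b ∉ A ∧ v ∉ A ∧ dZ s t Z A = 2)

/-- their union -/
private def MM (s t : E → V) (Z : Finset E) (a b v : V) : Finset V := (TT s t Z a b v).sup id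

private theorem MM_spec (s t : E → V) (Z : Finset E) (a b v : V)
    (hP : ∀ A : Finset V, a ∈ A → b ∉ A → 2 ≤ dZ s t Z A) :
    MM s t Z a b v = ∅ ∨ (a ∈ MM s t Z a b v ∧ b ∉ MM s t Z a b v ∧ v ∉ MM s t Z a b v ∧
      dZ s t Z (MM s t Z a b v) = 2) := by
  have key : MM s t Z a b v ∈ {A : Finset V | A = ∅ ∨ (a ∈ A ∧ b ∉ A ∧ v ∉ A ∧ dZ s t Z A = 2)} := by
    unfold MM
    refine Finset.sup_mem _ ?_ ?_ _ _ ?_
    · left; rfl
    · intro A hA B hB
      rcases hA with hA | ⟨hA1, hA2, hA3, hA4⟩
      · subst hA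
        have : (∅ : Finset V) ⊔ B = B := by simp
        rw [this]; exact hB
      · rcases hB with hB | ⟨hB1, hB2, hB3, hB4⟩
        · subst hB
          have : A ⊔ (∅ : Finset V) = A := by simp
          rw [this]; right; exact ⟨hA1, hA2, hA3, hA4⟩
        · right
          have e : A ⊔ B = A ∪ B := rfl
          rw [e]
          refine ⟨Finset.mem_union_left _ hA1, ?_, ?_, ?_⟩
          · simp [hA2, hB2]
          · simp [hA3, hB3]
          · have h1 := dZ_submod s t Z A B
            have h2 := hP (A ∩ B) (by simp [hA1, hB1]) (by simp [hA2])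
            have h3 := hP (A ∪ B) (by simp [hA1]) (by simp [hA2, hB2])
            omega
    · intro A hA
      right
      simpa [TT] using hA
  exact key

private theorem MM_v (s t : E → V) (Z : Finset E) (a b v : V)
    (hP : ∀ A : Finset V, a ∈ A → b ∉ A → 2 ≤ dZ s t Z A) : v ∉ MM s t Z a b v := by
  rcases MM_spec s t Z a b v hP with h | h
  · rw [h]; simp
  · exact h.2.2.1

/-- the edges of Z between v and M -/
private def KK (s t : E → V) (Z : Finset E) (v : V) (M : Finset V) : Finset E :=
  Z.filter (fun e => (s e = v ∧ t e ∈ M) ∨ (t e = v ∧ s e ∈ M))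

/-- the edges of Z at v -/
private def DD (s t : E → V) (Z : Finset E) (v : V) : Finset E :=
  Z.filter (fun e => s e = v ∨ t e = v)

private theorem insert_eq (s t : E → V) (Z : Finset E) (hl : ∀ e ∈ Z, s e ≠ t e) (v : V)
    (M : Finset V) (hv : v ∉ M) :
    dZ s t Z (insert v M) + 2 * (KK s t Z v M).card = dZ s t Z M + (DD s t Z v).card := by
  unfold KK DD
  rw [dZ_sum, dZ_sum, Finset.card_filter, Finset.card_filter, Finset.mul_sum,
    ← Finset.sum_add_distrib, ← Finset.sum_add_distrib]
  refine Finset.sum_congr rfl fun e he => ?_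
  have hne := hl e he
  unfold Crs
  by_cases h1 : s e = v
  · have h2 : t e ≠ v := fun h => hne (h1.trans h.symm)
    by_cases h3 : t e ∈ M
    · simp [h1, h2, h3, hv]
    · simp [h1, h2, h3, hv]
  · by_cases h2 : t e = v
    · by_cases h3 : s e ∈ M
      · simp [h1, h2, h3, hv]
      · simp [h1, h2, h3, hv]
    · simp [h1, h2]

private theorem two_k (s t : E → V) (Z : Finset E) (a b v : V) (hl : ∀ e ∈ Z, s e ≠ t e)
    (hP : ∀ A : Finset V, a ∈ A → b ∉ A → 2 ≤ dZ s t Z A) (hv : v ≠ b) :
    2 * (KK s t Z v (MM s t Z a b v)).card ≤ (DD s t Z v).card := by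
  rcases MM_spec s t Z a b v hP with h | ⟨h1, h2, h3, h4⟩
  · rw [h]
    simp [KK]
  · have e := insert_eq s t Z hl v _ h3
    have e2 := hP (insert v (MM s t Z a b v)) (Finset.mem_insert_of_mem h1) (by
      rw [Finset.mem_insert, not_or]
      exact ⟨fun h => hv h.symm, h2⟩)
    omega

private theorem k_le_two (s t : E → V) (Z : Finset E) (a b v : V)
    (hP : ∀ A : Finset V, a ∈ A → b ∉ A → 2 ≤ dZ s t Z A) :
    (KK s t Z v (MM s t Z a b v)).card ≤ 2 := by
  rcases MM_spec s t Z a b v hP with h | ⟨h1, h2, h3, h4⟩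
  · rw [h]
    simp [KK]
  · rw [← h4]
    unfold dZ
    refine Finset.card_le_card ?_
    intro e he
    unfold KK at he
    rw [Finset.mem_filter] at he ⊢
    refine ⟨he.1, ?_⟩
    unfold Crs
    rcases he.2 with ⟨h5, h6⟩ | ⟨h5, h6⟩
    · rw [h5]; simp [h6, h3]
    · rw [h5]; simp [h6, h3]

private theorem deg_le (s t : E → V) (Z : Finset E) (a b v : V)
    (hT : ∀ e ∈ Z, ∃ A : Finset V, a ∈ A ∧ b ∉ A ∧ dZ s t Z A = 2 ∧ Crs s t A e) :
    (DD s t Z v).card ≤ (KK s t Z v (MM s t Z a b v)).card + (KK s t Z v (MM s t Z b a v)).card := by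
  have sub : DD s t Z v ⊆ KK s t Z v (MM s t Z a b v) ∪ KK s t Z v (MM s t Z b a v) := by
    intro e he
    unfold DD at he
    rw [Finset.mem_filter] at he
    obtain ⟨heZ, hev⟩ := he
    obtain ⟨A, hA1, hA2, hA3, hA4⟩ := hT e heZ
    rw [Finset.mem_union]
    unfold KK
    rw [Finset.mem_filter, Finset.mem_filter]
    unfold Crs at hA4
    by_cases hvA : v ∈ A
    · right
      refine ⟨heZ, ?_⟩
      have hmem : Aᶜ ∈ TT s t Z b a v := by
        unfold TT
        simp [hA1, hA2, hvA, dZ_compl, hA3]
      have hsub : Aᶜ ⊆ MM s t Z b a v := Finset.le_sup (f := id) hmem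
      rcases hev with h | h
      · left
        refine ⟨h, hsub ?_⟩
        rw [h] at hA4
        simp only [hvA, true_iff] at hA4
        simpa using hA4
      · right
        refine ⟨h, hsub ?_⟩
        rw [h] at hA4
        simp only [hvA, iff_true] at hA4
        simpa using hA4
    · left
      refine ⟨heZ, ?_⟩
      have hmem : A ∈ TT s t Z a b v := by
        unfold TT
        simp [hA1, hA2, hvA, hA3]
      have hsub : A ⊆ MM s t Z a b v := Finset.le_sup (f := id) hmem
      rcases hev with h | h
      · left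
        refine ⟨h, hsub ?_⟩
        rw [h] at hA4
        simpa [hvA] using hA4
      · right
        refine ⟨h, hsub ?_⟩
        rw [h] at hA4
        simpa [hvA] using hA4
  exact (Finset.card_le_card sub).trans (Finset.card_union_le _ _)

private theorem even_at (s t : E → V) (Z : Finset E) (a b v : V) (hab : a ≠ b)
    (hl : ∀ e ∈ Z, s e ≠ t e)
    (hP : ∀ A : Finset V, a ∈ A → b ∉ A → 2 ≤ dZ s t Z A)
    (hP' : ∀ A : Finset V, b ∈ A → a ∉ A → 2 ≤ dZ s t Z A)
    (hT : ∀ e ∈ Z, ∃ A : Finset V, a ∈ A ∧ b ∉ A ∧ dZ s t Z A = 2 ∧ Crs s t A e)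
    (hvb : v ≠ b) : Even (DD s t Z v).card := by
  have h1 := deg_le s t Z a b v hT
  have h2 := two_k s t Z a b v hl hP hvb
  by_cases hva : v = a
  · subst hva
    have h0 : MM s t Z v b v = ∅ := by
      rcases MM_spec s t Z v b v hP with h | h
      · exact h
      · exact absurd h.1 h.2.2.1
    have h3 : (KK s t Z v (MM s t Z v b v)).card = 0 := by
      rw [h0]; simp [KK]
    have h4 := k_le_two s t Z b v v hP'
    have h5 : 2 ≤ dZ s t Z (insert v ∅) := hP (insert v ∅) (by simp) (by simpa using fun h => hab h.symm)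
    have h6 := insert_eq s t Z hl v ∅ (by simp)
    have h7 : dZ s t Z ∅ = 0 := by
      unfold dZ Crs
      simp
    have h8 : (KK s t Z v ∅).card = 0 := by simp [KK]
    have h9 : (DD s t Z v).card = 2 := by omega
    rw [h9]; exact even_two
  · have h3 := two_k s t Z b a v hl hP' hva
    have h4 : (DD s t Z v).card = 2 * (KK s t Z v (MM s t Z a b v)).card := by omega
    rw [h4]
    exact even_two_mul _

private theorem DD_card (s t : E → V) (Z : Finset E) (hl : ∀ e ∈ Z, s e ≠ t e) (v : V) :
    (Z.filter (fun e => s e = v)).card + (Z.filter (fun e => t e = v)).card = (DD s t Z v).card := by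
  unfold DD
  rw [Finset.filter_or, Finset.card_union_of_disjoint]
  rw [Finset.disjoint_filter]
  intro e he h1 h2
  exact hl e he (h1.trans h2.symm)

/-- **Two edge-disjoint paths, without paths.**  If every cut separating a from b contains at least two
edges of S, then S contains an even edge set Z such that every cut separating a from b contains an edge
of Z.

PROOF.  Take Z ⊆ S of minimal cardinality with Phi(Z): for all A with a in A, b not in A,
d(A) := (Z.filter (Crs s t A)).card ≥ 2.  (Only the evenness has to be shown.)  Call A (a,b)-tight if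
a in A, b not in A and d(A) = 2.
(1) Every e in Z crosses an (a,b)-tight set: Z.erase e does not satisfy Phi, so there is A with a in A,
    b not in A and at most one edge of Z.erase e crossing; as d(A) ≥ 2, e crosses A and d(A) = 2.
    In particular Z contains no loop.
(2) d(A ∩ B) + d(A ∪ B) ≤ d(A) + d(B) (check it for one edge), so intersections and unions of tight sets
    are tight.
(3) For a vertex v let M = M(a,b,v) be the union of all the (a,b)-tight sets which do not contain v; M is
    empty or tight (by (2)), and v is not in M.  (Or: take a tight set avoiding v of maximal cardinality.)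
    Let k(a,b,v) be the number of edges of Z between v and M.  Let deg v be the number of edges of Z at v.
    If v ≠ b, then 2 k(a,b,v) ≤ deg v: if M is empty, k = 0; otherwise M ∪ {v} contains a and not b, so
    2 ≤ d(M ∪ {v}) = d(M) - k + (deg v - k) = 2 - 2 k + deg v.
(4) The complements of the (a,b)-tight sets are the (b,a)-tight sets.  By (1) every edge e = vw of Z
    crosses an (a,b)-tight set A; if v is not in A, then w is in A, so w is in M(a,b,v); if v is in A, then
    w is in the complement of A, which is (b,a)-tight and does not contain v, so w is in M(b,a,v).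
    Hence deg v ≤ k(a,b,v) + k(b,a,v).
(5) If v ≠ a and v ≠ b: deg v ≤ k(a,b,v) + k(b,a,v) and 2 k(a,b,v) ≤ deg v and 2 k(b,a,v) ≤ deg v give
    deg v = 2 k(a,b,v), even.
(6) v = a: k(a,b,a) = 0 (a tight set contains a), so deg a ≤ k(b,a,a) ≤ d(M(b,a,a)) ≤ 2, and
    deg a = d({a}) ≥ 2 by Phi.  So deg a = 2.  In the same way deg b = 2 (use the complement of {b}). -/
theorem exists_even (s t : E → V) (S : Finset E) (a b : V) (hab : a ≠ b)
    (h : ∀ A : Finset V, a ∈ A → b ∉ A → 2 ≤ (S.filter (Crs s t A)).card) :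
    ∃ Z ⊆ S, EvSet s t Z ∧ ∀ A : Finset V, a ∈ A → b ∉ A → ∃ e ∈ Z, Crs s t A e := by
  classical
  let F : Finset (Finset E) := S.powerset.filter
    (fun Z => ∀ A : Finset V, a ∈ A → b ∉ A → 2 ≤ dZ s t Z A)
  have hF : F.Nonempty := ⟨S, by
    simp only [F, Finset.mem_filter, Finset.mem_powerset_self, true_and]
    exact h⟩
  obtain ⟨Z, hZF, hmin⟩ := Finset.exists_min_image F Finset.card hF
  simp only [F, Finset.mem_filter, Finset.mem_powerset] at hZF
  obtain ⟨hZS, hP⟩ := hZF
  have hT : ∀ e ∈ Z, ∃ A : Finset V, a ∈ A ∧ b ∉ A ∧ dZ s t Z A = 2 ∧ Crs s t A e := by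
    intro e he
    have hnot : Z.erase e ∉ F := by
      intro hin
      have := hmin _ hin
      have h2 := Finset.card_erase_lt_of_mem he
      omega
    simp only [F, Finset.mem_filter, Finset.mem_powerset, not_and] at hnot
    have hn := hnot ((Finset.erase_subset e Z).trans hZS)
    push Not at hn
    obtain ⟨A, hA1, hA2, hA3⟩ := hn
    have h2 := hP A hA1 hA2
    have h3 : (Z.erase e).filter (Crs s t A) = (Z.filter (Crs s t A)).erase e :=
      Finset.filter_erase _ _ _
    unfold dZ at hA3 h2
    rw [h3] at hA3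
    have hc : Crs s t A e := by
      by_contra hc
      rw [Finset.erase_eq_of_notMem (by simp [hc])] at hA3
      omega
    have hme : e ∈ Z.filter (Crs s t A) := by simp [he, hc]
    rw [Finset.card_erase_of_mem hme] at hA3
    refine ⟨A, hA1, hA2, ?_, hc⟩
    unfold dZ
    omega
  have hl : ∀ e ∈ Z, s e ≠ t e := by
    intro e he hst
    obtain ⟨A, _, _, _, hA⟩ := hT e he
    unfold Crs at hA
    rw [hst] at hA
    exact hA Iff.rfl
  have hP' : ∀ A : Finset V, b ∈ A → a ∉ A → 2 ≤ dZ s t Z A := by
    intro A hb ha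
    rw [← dZ_compl]
    exact hP Aᶜ (by simpa using ha) (by simpa using hb)
  have hT' : ∀ e ∈ Z, ∃ A : Finset V, b ∈ A ∧ a ∉ A ∧ dZ s t Z A = 2 ∧ Crs s t A e := by
    intro e he
    obtain ⟨A, h1, h2, h3, h4⟩ := hT e he
    refine ⟨Aᶜ, by simpa using h2, by simpa using h1, by rw [dZ_compl]; exact h3, ?_⟩
    unfold Crs at h4 ⊢
    simp only [Finset.mem_compl]
    intro h5
    exact h4 (not_iff_not.mp h5)
  refine ⟨Z, hZS, ?_, ?_⟩
  · intro v
    rw [DD_card s t Z hl v]
    by_cases hvb : v = b
    · subst hvb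
      exact even_at s t Z v a v (Ne.symm hab) hl hP' hP hT' (Ne.symm hab)
    · exact even_at s t Z a b v hab hl hP hP' hT hvb
  · intro A hA1 hA2
    have h2 := hP A hA1 hA2
    unfold dZ at h2
    have : (Z.filter (Crs s t A)).Nonempty := by
      rw [← Finset.card_pos]; omega
    obtain ⟨e, he⟩ := this
    rw [Finset.mem_filter] at he
    exact ⟨e, he.1, he.2⟩

end EF

end CDC
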