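import Pool.Agent.helper11.EF.Ear

/-!
# EF-Step : the induction step of the 8-flow theorem (part B).  Proved by helper11.
-/

namespace CDC

namespace EF

variable {V E : Type*} [Fintype V] [DecidableEq V] [Fintype E] [DecidableEq E]

/-- The statement which is proved by induction on the complement of U. -/
def P (s t : E → V) (U : Finset V) : Prop :=
  ∃ (c : E → ZMod 2) (g : E → K2), IsFlow s t c ∧ IsFlow s t g ∧
    (∀ e, c e ≠ 0 → s e ∉ U ∧ t e ∉ U) ∧ ∀ e, ¬ Ins s t U e → c e ≠ 0 ∨ g e ≠ 0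

/-- Two vertices of U connected in G are connected in G[U]. -/
def Con (s t : E → V) (U : Finset V) : Prop :=
  ∀ A : Finset V, (∀ e, Ins s t U e → ¬ Crs s t A e) →
    ∃ A' : Finset V, (∀ e, ¬ Crs s t A' e) ∧ ∀ u ∈ U, (u ∈ A' ↔ u ∈ A)

omit [Fintype V] [Fintype E] [DecidableEq E] in
theorem not_crs {s t : E → V} {A : Finset V} {e : E} : ¬ Crs s t A e ↔ (s e ∈ A ↔ t e ∈ A) := by
  unfold Crs; exact not_not

omit [Fintype V] [Fintype E] [DecidableEq E] in
theorem Ins.mono {s t : E → V} {A B : Finset V} (h : A ⊆ B) {e : E} (he : Ins s t A e) :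
    Ins s t B e := ⟨h he.1, h he.2⟩

private theorem con_gen {s t : E → V} {U W : Finset V} {Z : Finset E} {a : V} (hc : Con s t U)
    (h : Ear s t U W Z a) (S : E → Prop) (hSU : ∀ e, Ins s t U e → S e) (hSZ : ∀ e ∈ Z, S e)
    (hS1 : (∃ X : Finset V, (∀ e, ¬ Crs s t X e) ∧ W ⊆ X ∧ Disjoint X U) ∨
      ∃ e1, S e1 ∧ e1 ∈ bt s t W U) (A : Finset V) (hA : ∀ e, S e → ¬ Crs s t A e) :
    ∃ A' : Finset V, (∀ e, ¬ Crs s t A' e) ∧ ∀ u ∈ U ∪ W, (u ∈ A' ↔ u ∈ A) := by
  obtain ⟨A0, hA0, hU⟩ := hc A fun e he => hA e (hSU e he)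
  have hW : ∀ w ∈ W, (w ∈ A ↔ a ∈ A) := h.conn A fun e he => hA e (hSZ e he)
  have hW0 : ∀ w ∈ W, (w ∈ A0 ↔ a ∈ A0) := h.conn A0 fun e _ => hA0 e
  rcases hS1 with ⟨X, hX, hWX, hXU⟩ | ⟨e1, he1, hb1⟩
  · by_cases ha : a ∈ A
    · refine ⟨A0 ∪ X, fun e => ?_, fun u hu => ?_⟩
      · have h1 := not_crs.mp (hA0 e)
        have h2 := not_crs.mp (hX e)
        rw [not_crs, Finset.mem_union, Finset.mem_union, h1, h2]
      · rcases Finset.mem_union.mp hu with hu | hu
        · have h1 : u ∉ X := fun hx => Finset.disjoint_left.mp hXU hx hu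
          rw [Finset.mem_union, hU u hu]
          tauto
        · rw [Finset.mem_union, hW u hu]
          have := hWX hu
          tauto
    · refine ⟨A0 \ X, fun e => ?_, fun u hu => ?_⟩
      · have h1 := not_crs.mp (hA0 e)
        have h2 := not_crs.mp (hX e)
        rw [not_crs, Finset.mem_sdiff, Finset.mem_sdiff, h1, h2]
      · rcases Finset.mem_union.mp hu with hu | hu
        · have h1 : u ∉ X := fun hx => Finset.disjoint_left.mp hXU hx hu
          rw [Finset.mem_sdiff, hU u hu]
          tauto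
        · rw [Finset.mem_sdiff, hW u hu]
          have := hWX hu
          tauto
  · refine ⟨A0, hA0, fun u hu => ?_⟩
    have h1 := not_crs.mp (hA e1 he1)
    have h2 := not_crs.mp (hA0 e1)
    unfold bt at hb1
    rw [Finset.mem_filter] at hb1
    rcases Finset.mem_union.mp hu with hu | hu
    · exact hU u hu
    · rw [hW u hu, hW0 u hu]
      rcases hb1.2 with ⟨h3, h4⟩ | ⟨h3, h4⟩
      · rw [← hW _ h3, ← hW0 _ h3, h1, h2, hU _ h4]
      · rw [← hW _ h4, ← hW0 _ h4, ← h1, ← h2, hU _ h3]

theorem bt_ins {s t : E → V} {U W : Finset V} {e : E} (he : e ∈ bt s t W U) :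
    Ins s t (U ∪ W) e := by
  unfold bt at he
  rw [Finset.mem_filter] at he
  rcases he.2 with ⟨h3, h4⟩ | ⟨h3, h4⟩
  · exact ⟨Finset.mem_union_right _ h3, Finset.mem_union_left _ h4⟩
  · exact ⟨Finset.mem_union_left _ h3, Finset.mem_union_right _ h4⟩

theorem con_step {s t : E → V} {U W : Finset V} {Z : Finset E} {a : V} (hc : Con s t U)
    (h : Ear s t U W Z a) : Con s t (U ∪ W) := by
  intro A hA
  refine con_gen hc h (Ins s t (U ∪ W)) (fun e he => he.mono Finset.subset_union_left)
    (fun e he => (h.ins e he).mono Finset.subset_union_right) ?_ A hA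
  rcases h.att with h1 | ⟨e1, e2, -, h1, -⟩ | ⟨e1, e', h1, -⟩
  · exact Or.inl h1
  · exact Or.inr ⟨e1, bt_ins h1, h1⟩
  · have h2 : e1 ∈ bt s t W U := by rw [h1]; exact Finset.mem_singleton_self e1
    exact Or.inr ⟨e1, bt_ins h2, h2⟩

private theorem ear_reach {s t : E → V} {U W : Finset V} {Z : Finset E} {a : V} (hc : Con s t U)
    (h : Ear s t U W Z a) (S : E → Prop) (hSU : ∀ e, Ins s t U e → S e) (hSZ : ∀ e ∈ Z, S e)
    (hS1 : (∃ X : Finset V, (∀ e, ¬ Crs s t X e) ∧ W ⊆ X ∧ Disjoint X U) ∨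
      ∃ e1, S e1 ∧ e1 ∈ bt s t W U) (e : E) (he : Ins s t (U ∪ W) e) :
    ∃ T : E → ZMod 2, (∀ x, T x ≠ 0 → S x) ∧
      ∀ w, bd s t T w = bd s t (Pi.single e (1 : ZMod 2)) w := by
  obtain ⟨T, hT, hb⟩ := reach s t S (s e) (t e) (by
    intro A hu hv
    by_contra hcon
    push Not at hcon
    obtain ⟨A', hA', hx⟩ := con_gen hc h S hSU hSZ hS1 A hcon
    have h1 := not_crs.mp (hA' e)
    rw [hx _ he.1, hx _ he.2] at h1
    exact hv (h1.mp hu))
  exact ⟨T, hT, fun w => by rw [hb, bd_single]⟩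

private theorem bd_smul (s t : E → V) (D : E → ZMod 2) (β : K2) (v : V) :
    bd s t (fun x => D x • β) v = bd s t D v • β := by
  unfold bd
  rw [Finset.sum_smul]
  refine Finset.sum_congr rfl fun e _ => ?_
  rw [add_smul]
  split_ifs <;> simp

private theorem ev_flow {s t : E → V} {Z : Finset E} (h : EvSet s t Z) :
    IsFlow s t (fun e => if e ∈ Z then (1 : ZMod 2) else 0) := by
  intro v
  unfold bd
  rw [Finset.sum_add_distrib]
  have h1 : ∀ r : E → V, ∑ e, (if r e = v then (if e ∈ Z then (1 : ZMod 2) else 0) else 0) =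
      ((Z.filter (fun e => r e = v)).card : ZMod 2) := by
    intro r
    rw [← Finset.sum_filter, ← Finset.sum_filter, Finset.filter_filter, Finset.sum_const,
      nsmul_eq_mul, mul_one]
    congr 2
    ext e
    simp only [Finset.mem_filter, Finset.mem_univ, true_and]
    exact and_comm
  rw [h1, h1, ← Nat.cast_add]
  exact (ZMod.natCast_eq_zero_iff_even).mpr (h v)

private theorem k2_add (x : K2) : x + x = 0 := by
  funext i
  exact CharTwo.add_self_eq_zero (x i)

private theorem k2_avoid (p q : K2) : ∃ β : K2, p + β ≠ 0 ∧ q + β ≠ 0 := by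
  revert p q
  decide

private theorem core {s t : E → V} {U W : Finset V} {Z : Finset E} {a : V} (hc : Con s t U)
    (h : Ear s t U W Z a) (c' : E → ZMod 2) (g' : E → K2) (hc' : IsFlow s t c')
    (hg' : IsFlow s t g') (hsup : ∀ e, c' e ≠ 0 → s e ∉ U ∪ W ∧ t e ∉ U ∪ W)
    (hne : ∀ e, ¬ Ins s t (U ∪ W) e → c' e ≠ 0 ∨ g' e ≠ 0) :
    ∃ g : E → K2, IsFlow s t g ∧ (∀ e, ¬ Ins s t (U ∪ W) e → g e = g' e) ∧
      ∀ e, Ins s t (U ∪ W) e → ¬ Ins s t U e → e ∉ Z → g e ≠ 0 := by
  have hk : (fun _ => 1 : K2) ≠ 0 := by decide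
  rcases h.att with h1 | ⟨e1, e2, h12, hb1, hb2⟩ | ⟨e1, e', hb1, he', hf, hf2⟩
  · obtain ⟨g, hg, hgo, hgB⟩ := correct s t (fun e => Ins s t U e ∨ e ∈ Z)
      (Finset.univ.filter (fun e => Ins s t (U ∪ W) e ∧ ¬ Ins s t U e ∧ e ∉ Z)) (fun _ => 1)
      (by
        intro e he
        rw [Finset.mem_filter] at he
        tauto)
      (by
        intro e he
        rw [Finset.mem_filter] at he
        exact ear_reach hc h _ (fun e he => Or.inl he) (fun e he => Or.inr he) (Or.inl h1) e he.2.1)
      g' hg'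
    refine ⟨g, hg, fun e he => hgo e ?_ ?_, fun e h1 h2 h3 => ?_⟩
    · rintro (h2 | h2)
      · exact he (h2.mono Finset.subset_union_left)
      · exact he ((h.ins e h2).mono Finset.subset_union_right)
    · rw [Finset.mem_filter]
      tauto
    · rw [hgB e (by rw [Finset.mem_filter]; exact ⟨Finset.mem_univ _, h1, h2, h3⟩)]
      exact hk
  · obtain ⟨g, hg, hgo, hgB⟩ := correct s t (fun e => Ins s t U e ∨ e ∈ Z ∨ e = e1)
      (Finset.univ.filter (fun e => Ins s t (U ∪ W) e ∧ ¬ Ins s t U e ∧ e ∉ Z ∧ e ≠ e1 ∧ e ≠ e2))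
      (fun _ => 1)
      (by
        intro e he
        rw [Finset.mem_filter] at he
        tauto)
      (by
        intro e he
        rw [Finset.mem_filter] at he
        exact ear_reach hc h (fun e => Ins s t U e ∨ e ∈ Z ∨ e = e1) (fun e he => Or.inl he)
          (fun e he => Or.inr (Or.inl he)) (Or.inr ⟨e1, Or.inr (Or.inr rfl), hb1⟩) e he.2.1)
      g' hg'
    obtain ⟨T, hT, hTb⟩ := ear_reach hc h (fun e => Ins s t U e ∨ e ∈ Z ∨ e = e1)
      (fun e he => Or.inl he) (fun e he => Or.inr (Or.inl he))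
      (Or.inr ⟨e1, Or.inr (Or.inr rfl), hb1⟩) e2 (bt_ins hb2)
    have hnS : ∀ e, e ∈ bt s t W U → e ≠ e1 → ¬ (Ins s t U e ∨ e ∈ Z ∨ e = e1) := by
      intro e he hne1
      have hd := Finset.disjoint_left.mp h.disj
      unfold bt at he
      rw [Finset.mem_filter] at he
      rintro (h2 | h2 | h2)
      · rcases he.2 with ⟨h3, h4⟩ | ⟨h3, h4⟩
        · exact hd h3 h2.1
        · exact hd h4 h2.2
      · have h5 := h.ins e h2
        rcases he.2 with ⟨h3, h4⟩ | ⟨h3, h4⟩
        · exact hd h5.2 h4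
        · exact hd h5.1 h3
      · exact hne1 h2
    have hTe2 : T e2 = 0 := by
      by_contra h2
      exact hnS e2 hb2 h12.symm (hT e2 h2)
    set D : E → ZMod 2 := T + Pi.single e2 1 with hD
    have hDf : IsFlow s t D := by
      intro w
      rw [hD, bd_add, hTb]
      exact CharTwo.add_self_eq_zero _
    have hDe2 : D e2 = 1 := by
      rw [hD, Pi.add_apply, hTe2, Pi.single_eq_same, zero_add]
    have hDo : ∀ x, x ≠ e2 → ¬ (Ins s t U x ∨ x ∈ Z ∨ x = e1) → D x = 0 := by
      intro x hx hS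
      rw [hD, Pi.add_apply, Pi.single_eq_of_ne hx, add_zero]
      by_contra h2
      exact hS (hT x h2)
    have hDe1 : D e1 = 1 := by
      have h2 := flow_cut (fun x : ZMod 2 => CharTwo.add_self_eq_zero x) hDf W
      have hd := Finset.disjoint_left.mp h.disj
      have hcr : ∀ e, e ∈ bt s t W U → e ∈ cut s t W := by
        intro e he
        unfold bt at he
        unfold cut
        rw [Finset.mem_filter] at he ⊢
        refine ⟨Finset.mem_univ _, ?_⟩
        rcases he.2 with ⟨h3, h4⟩ | ⟨h3, h4⟩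
        · intro h5
          exact hd (h5.mp h3) h4
        · intro h5
          exact hd (h5.mpr h4) h3
      have h3 : ∑ e ∈ cut s t W, D e = D e1 + D e2 := by
        rw [← Finset.sum_pair h12]
        symm
        apply Finset.sum_subset
        · intro x hx
          rw [Finset.mem_insert, Finset.mem_singleton] at hx
          rcases hx with rfl | rfl
          · exact hcr _ hb1
          · exact hcr _ hb2
        · intro x hx hx2
          rw [Finset.mem_insert, Finset.mem_singleton, not_or] at hx2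
          apply hDo x hx2.2
          unfold cut at hx
          rw [Finset.mem_filter] at hx
          rintro (h4 | h4 | h4)
          · exact hx.2 ⟨fun h5 => absurd h4.1 (hd h5), fun h5 => absurd h4.2 (hd h5)⟩
          · have h5 := h.ins x h4
            exact hx.2 ⟨fun _ => h5.2, fun _ => h5.1⟩
          · exact hx2.1 h4
      rw [h3, hDe2] at h2
      have h4 : ∀ x : ZMod 2, x + 1 = 0 → x = 1 := by decide
      exact h4 _ h2
    obtain ⟨β, hβ1, hβ2⟩ := k2_avoid (g e1) (g e2)
    refine ⟨g + fun x => D x • β, IsFlow.add hg (fun v => by rw [bd_smul, hDf v, zero_smul]),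
      fun e he => ?_, fun e h1 h2 h3 => ?_⟩
    · have hS : ¬ (Ins s t U e ∨ e ∈ Z ∨ e = e1) := by
        rintro (h2 | h2 | h2)
        · exact he (h2.mono Finset.subset_union_left)
        · exact he ((h.ins e h2).mono Finset.subset_union_right)
        · rw [h2] at he
          exact he (bt_ins hb1)
      have hne2 : e ≠ e2 := by
        intro h2
        rw [h2] at he
        exact he (bt_ins hb2)
      rw [Pi.add_apply, hDo e hne2 hS, zero_smul, add_zero]
      apply hgo e hS
      rw [Finset.mem_filter]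
      tauto
    · rw [Pi.add_apply]
      by_cases h4 : e = e1
      · rw [h4, hDe1, one_smul]; exact hβ1
      · by_cases h5 : e = e2
        · rw [h5, hDe2, one_smul]; exact hβ2
        · rw [hDo e h5 (by tauto), zero_smul, add_zero,
            hgB e (by rw [Finset.mem_filter]; exact ⟨Finset.mem_univ _, h1, h2, h3, h4, h5⟩)]
          exact hk
  · have hb1' : e1 ∈ bt s t W U := by rw [hb1]; exact Finset.mem_singleton_self e1
    obtain ⟨g, hg, hgo, hgB⟩ := correct s t (fun e => Ins s t U e ∨ e ∈ Z ∨ e = e1)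
      (Finset.univ.filter (fun e => Ins s t (U ∪ W) e ∧ ¬ Ins s t U e ∧ e ∉ Z ∧ e ≠ e1))
      (fun _ => 1)
      (by
        intro e he
        rw [Finset.mem_filter] at he
        tauto)
      (by
        intro e he
        rw [Finset.mem_filter] at he
        exact ear_reach hc h (fun e => Ins s t U e ∨ e ∈ Z ∨ e = e1) (fun e he => Or.inl he)
          (fun e he => Or.inr (Or.inl he)) (Or.inr ⟨e1, Or.inr (Or.inr rfl), hb1'⟩) e he.2.1)
      g' hg'
    have hout : ∀ e, ¬ Ins s t (U ∪ W) e → g e = g' e := by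
      intro e he
      apply hgo e
      · rintro (h2 | h2 | h2)
        · exact he (h2.mono Finset.subset_union_left)
        · exact he ((h.ins e h2).mono Finset.subset_union_right)
        · rw [h2] at he
          exact he (bt_ins hb1')
      · rw [Finset.mem_filter]
        tauto
    refine ⟨g, hg, hout, fun e h1 h2 h3 => ?_⟩
    by_cases h4 : e = e1
    · rw [h4, hf g hg, hout e' he']
      rcases hne e' he' with h5 | h5
      · exfalso
        rw [← hf2 c' hc'] at h5
        exact (hsup e1 h5).1 (bt_ins hb1').1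
      · exact h5
    · rw [hgB e (by rw [Finset.mem_filter]; exact ⟨Finset.mem_univ _, h1, h2, h3, h4⟩)]
      exact hk

theorem p_step {s t : E → V} {U W : Finset V} {Z : Finset E} {a : V} (hc : Con s t U)
    (h : Ear s t U W Z a) (hP : P s t (U ∪ W)) : P s t U := by
  obtain ⟨c', g', hc', hg', hsup, hne⟩ := hP
  obtain ⟨g, hg, hout, hin⟩ := core hc h c' g' hc' hg' hsup hne
  have hd := Finset.disjoint_left.mp h.disj
  refine ⟨c' + (fun e => if e ∈ Z then (1 : ZMod 2) else 0), g, IsFlow.add hc' (ev_flow h.even), hg,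
    fun e he => ?_, fun e he => ?_⟩
  · by_cases hZ : e ∈ Z
    · have h1 := h.ins e hZ
      exact ⟨hd h1.1, hd h1.2⟩
    · rw [Pi.add_apply, if_neg hZ, add_zero] at he
      have h1 := hsup e he
      exact ⟨fun h2 => h1.1 (Finset.mem_union_left _ h2),
        fun h2 => h1.2 (Finset.mem_union_left _ h2)⟩
  · by_cases hI : Ins s t (U ∪ W) e
    · by_cases hZ : e ∈ Z
      · left
        rw [Pi.add_apply, if_pos hZ]
        have h1 : c' e = 0 := by
          by_contra h2
          exact (hsup e h2).1 hI.1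
        rw [h1, zero_add]
        exact one_ne_zero
      · right
        exact hin e hI he hZ
    · have hZ : e ∉ Z := fun hZ => hI ((h.ins e hZ).mono Finset.subset_union_right)
      rw [Pi.add_apply, if_neg hZ, add_zero, hout e hI]
      exact hne e hI

end EF

end CDC
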